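import Pool.Agent.Q210.HR.Main

set_option autoImplicit false

/-! # The number of Hamilton cycles is not determined by the deck of size `cn` -/

namespace Pool.Agent.Results.MP_9d0e7f_co.HamiltonCyclesNotReconstructible

open Pool.Agent.Q210.HR

/-- There are no constants `0 ≤ c < 1` and `n₀` such that for all `n ≥ n₀` the number of Hamilton
cycles of graphs with `n` vertices is determined by the deck of size `⌊cn⌋`. In fact, for each
`0 ≤ c < 1` and all large `n` there are graphs `G` and `H` with `n` vertices and the same decks of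
size `⌊cn⌋` such that `G` has a Hamilton cycle and `H` has none. -/
theorem result :
    (¬ ∃ (c : ℝ) (n₀ : ℕ), 0 ≤ c ∧ c < 1 ∧ ∀ n : ℕ, n₀ ≤ n → Determined c n) ∧
    ∀ c : ℝ, 0 ≤ c → c < 1 → ∃ n₁ : ℕ, ∀ n : ℕ, n₁ ≤ n → ∃ G H : SimpleGraph (Fin n),
      SameDeck G H ⌊c * n⌋₊ ∧ 0 < hamCount G ∧ hamCount H = 0 := by
  refine ⟨?_, fun c _ hc1 => main c hc1⟩
  rintro ⟨c, n₀, _, hc1, h⟩
  obtain ⟨n₁, hn₁⟩ := main c hc1
  obtain ⟨G, H, hd, hG, hH⟩ := hn₁ (max n₀ n₁) (le_max_right _ _)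
  have := h (max n₀ n₁) (le_max_left _ _) G H hd
  omega

end Pool.Agent.Results.MP_9d0e7f_co.HamiltonCyclesNotReconstructible
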